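import Pool.Agent.X187.WC.Hyper
import Pool.Agent.X187.WC.Run

open Filter Topology
open scoped ContDiff

namespace Pool.Agent.Results.MP_fcbc3e_an.SupercyclicNotChaotic

/-- The Euclidean space of dimension `d`. -/
abbrev Eu (d : ℕ) : Type := EuclideanSpace ℝ (Fin d)

/-- `f` is a smooth function on `Ω`. -/
def Smooth {d : ℕ} {𝕂 : Type*} [RCLike 𝕂] (Ω : Set (Eu d)) (f : Eu d → 𝕂) : Prop :=
  ContDiffOn ℝ ∞ f Ω

/-- `f` and `g` are `ε`-close on `L` together with all derivatives up to order `n`. -/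
def IsClose {d : ℕ} {𝕂 : Type*} [RCLike 𝕂] (L : Set (Eu d)) (n : ℕ) (ε : ℝ) (f g : Eu d → 𝕂) :
    Prop :=
  ∀ k ≤ n, ∀ x ∈ L, ‖iteratedFDeriv ℝ k f x - iteratedFDeriv ℝ k g x‖ < ε

/-- The set `S` of functions is dense in the Fréchet space of smooth functions on `Ω`. -/
def DenseInSmooth {d : ℕ} {𝕂 : Type*} [RCLike 𝕂] (Ω : Set (Eu d)) (S : Set (Eu d → 𝕂)) : Prop :=
  ∀ f, Smooth Ω f → ∀ L ⊆ Ω, IsCompact L → ∀ (n : ℕ) (ε : ℝ), 0 < ε → ∃ g ∈ S, IsClose L n ε f g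

/-- The weighted composition operator `f ↦ w · (f ∘ ψ)`. -/
def wcomp {d : ℕ} {𝕂 : Type*} [RCLike 𝕂] (w : Eu d → 𝕂) (ψ : Eu d → Eu d) (f : Eu d → 𝕂) :
    Eu d → 𝕂 := fun x => w x * f (ψ x)

/-- Supercyclicity of `T` on the smooth functions on `Ω`. -/
def IsSupercyclic {d : ℕ} {𝕂 : Type*} [RCLike 𝕂] (Ω : Set (Eu d)) (T : (Eu d → 𝕂) → Eu d → 𝕂) :
    Prop :=
  ∃ g, Smooth Ω g ∧ DenseInSmooth Ω {h | ∃ (c : 𝕂) (m : ℕ), h = fun x => c * (T^[m] g) x}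

/-- Topological transitivity of `T` on the smooth functions on `Ω`. -/
def IsTransitive {d : ℕ} {𝕂 : Type*} [RCLike 𝕂] (Ω : Set (Eu d)) (T : (Eu d → 𝕂) → Eu d → 𝕂) :
    Prop :=
  ∀ f g, Smooth Ω f → Smooth Ω g → ∀ L ⊆ Ω, IsCompact L → ∀ (n : ℕ) (ε : ℝ), 0 < ε →
    ∃ (m : ℕ) (h : Eu d → 𝕂), Smooth Ω h ∧ IsClose L n ε f h ∧ IsClose L n ε g (T^[m] h)

/-- Chaos: transitivity and density of the periodic points. -/
def IsChaotic {d : ℕ} {𝕂 : Type*} [RCLike 𝕂] (Ω : Set (Eu d)) (T : (Eu d → 𝕂) → Eu d → 𝕂) :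
    Prop :=
  IsTransitive Ω T ∧
    DenseInSmooth Ω {h | Smooth Ω h ∧ ∃ m : ℕ, 1 ≤ m ∧ ∀ x ∈ Ω, (T^[m] h) x = h x}

lemma iter_wcomp {d : ℕ} {𝕂 : Type*} [RCLike 𝕂] (ψ : Eu d → Eu d) (f : Eu d → 𝕂) (m : ℕ) :
    (wcomp (fun _ => (1 : 𝕂)) ψ)^[m] f = f ∘ ψ^[m] := by
  induction m with
  | zero => rfl
  | succ m ih =>
    rw [Function.iterate_succ_apply', ih]
    funext x
    simp [wcomp]

/-- For `d = 3` there are an open set `Ω`, and smooth `w` and `ψ : Ω → Ω`, such that the weighted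
composition operator is supercyclic but not chaotic on the smooth functions on `Ω`. -/
theorem result {𝕂 : Type*} [RCLike 𝕂] :
    ∃ (d : ℕ) (Ω : Set (Eu d)) (w : Eu d → 𝕂) (ψ : Eu d → Eu d), 2 ≤ d ∧ Ω.Nonempty ∧ IsOpen Ω ∧
      Smooth Ω w ∧ ContDiffOn ℝ ∞ ψ Ω ∧ Set.MapsTo ψ Ω Ω ∧ IsSupercyclic Ω (wcomp w ψ) ∧
      ¬ IsChaotic Ω (wcomp w ψ) := by
  refine ⟨3, X187.WC.Om, fun _ => 1, X187.WC.Psi, by norm_num, ⟨_, X187.WC.q0_mem⟩,
    X187.WC.isOpen_Om, contDiffOn_const, X187.WC.smooth_Psi, X187.WC.mapsTo_Psi, ?_, ?_⟩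
  · obtain ⟨g, hg, hd⟩ := X187.WC.exists_hypercyclic (𝕂 := 𝕂) X187.WC.Om X187.WC.isOpen_Om
      X187.WC.Psi X187.WC.Phi X187.WC.Phi_Psi X187.WC.Psi_Phi X187.WC.smooth_Psi
      X187.WC.smooth_Phi X187.WC.mapsTo_Psi X187.WC.mapsTo_Phi X187.WC.run_away
    refine ⟨g, hg, ?_⟩
    intro f hf L hL hLc n ε hε
    obtain ⟨m, hm⟩ := hd f hf L hL hLc n ε hε
    refine ⟨g ∘ X187.WC.Psi^[m], ⟨1, m, ?_⟩, hm⟩
    rw [iter_wcomp]
    funext x
    simp
  · rintro ⟨-, hper⟩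
    set f₀ : Eu 3 → 𝕂 := fun v => ((v 0 : ℝ) : 𝕂) with hf₀
    have hf₀s : Smooth X187.WC.Om f₀ := by
      have h1 : ContDiff ℝ ∞ (fun v : Eu 3 => v 0) := by fun_prop
      have h2 : ContDiff ℝ ∞ (fun r : ℝ => ((r : ℝ) : 𝕂)) :=
        (RCLike.ofRealCLM (K := 𝕂)).contDiff
      exact (h2.comp h1).contDiffOn
    obtain ⟨h, ⟨hs, m, hm, hmh⟩, hclose⟩ := hper f₀ hf₀s {X187.WC.p0, X187.WC.q0}
      (by
        rintro x (rfl | rfl)
        · exact X187.WC.p0_mem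
        · exact X187.WC.q0_mem)
      (by simp) 0 (1 / 2) (by norm_num)
    -- periodic functions take the same value at the two points
    have heq : h X187.WC.q0 = h X187.WC.p0 := by
      obtain ⟨l, hl1, hl2⟩ := X187.WC.recur m hm
      have hiter : ∀ (j : ℕ), ∀ x ∈ X187.WC.Om, h (X187.WC.Psi^[m * j] x) = h x := by
        intro j
        induction j with
        | zero => intro x _; simp
        | succ j ih =>
          intro x hx
          rw [Nat.mul_succ, Function.iterate_add_apply, ih _ (X187.WC.mapsTo_Psi.iterate m hx)]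
          have := hmh x hx
          rwa [iter_wcomp] at this
      have c1 : Tendsto (fun k => h (X187.WC.qn (m * l k))) atTop (𝓝 (h X187.WC.q0)) :=
        ((hs.contDiffAt (X187.WC.isOpen_Om.mem_nhds X187.WC.q0_mem)).continuousAt).tendsto.comp hl1
      have c2 : Tendsto (fun k => h (X187.WC.Psi^[m * l k] (X187.WC.qn (m * l k)))) atTop
          (𝓝 (h X187.WC.p0)) :=
        ((hs.contDiffAt (X187.WC.isOpen_Om.mem_nhds X187.WC.p0_mem)).continuousAt).tendsto.comp hl2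
      refine tendsto_nhds_unique c1 (c2.congr fun k => ?_)
      exact hiter _ _ (X187.WC.qn_mem _)
    have e1 := hclose 0 le_rfl X187.WC.p0 (by simp)
    have e2 := hclose 0 le_rfl X187.WC.q0 (by simp)
    have key : ∀ (u v : Eu 3 → 𝕂) (x : Eu 3), ‖iteratedFDeriv ℝ 0 u x - iteratedFDeriv ℝ 0 v x‖ =
        ‖u x - v x‖ := by
      intro u v x
      rw [iteratedFDeriv_zero_eq_comp, iteratedFDeriv_zero_eq_comp]
      simp only [Function.comp_apply]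
      rw [← map_sub, LinearIsometryEquiv.norm_map]
    rw [key] at e1 e2
    have f1 : f₀ X187.WC.p0 = 1 := by simp [hf₀, X187.WC.p0]
    have f2 : f₀ X187.WC.q0 = 0 := by simp [hf₀, X187.WC.q0]
    rw [f1] at e1
    rw [f2, zero_sub, norm_neg, heq] at e2
    have h3 : ‖(1 : 𝕂)‖ ≤ ‖1 - h X187.WC.p0‖ + ‖h X187.WC.p0‖ := by
      calc ‖(1 : 𝕂)‖ = ‖(1 - h X187.WC.p0) + h X187.WC.p0‖ := by rw [sub_add_cancel]
        _ ≤ _ := norm_add_le _ _
    rw [norm_one] at h3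
    linarith

end Pool.Agent.Results.MP_fcbc3e_an.SupercyclicNotChaotic
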